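import Pool.Agent.Helper72.AC.Circ
import Pool.Agent.Helper29.AC.Box

/-!
From a dense set on an independent set of variables to representations: injective maps.
-/

set_option autoImplicit false

open Finset

namespace Pool.Agent.Helper98.AC

open Pool.Agent.Helper72.AC

/-- the sum of the digits times powers of two -/
theorem mod_two_pow_eq_sum (x M : ℕ) :
    x % 2 ^ M = ∑ i ∈ range M, 2 ^ i * (x.testBit i).toNat := by
  induction M with
  | zero => simp [Nat.mod_one]
  | succ M ih => rw [Finset.sum_range_succ, Nat.mod_pow_succ, ih, Nat.toNat_testBit]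

/-- placing `k` blocks of size `s` -/
noncomputable def emb {n k s : ℕ} (φ : Fin k × Fin s → Fin n) (z : Fin n → Bool)
    (y : Fin k → Fin s → Bool) : Fin n → Bool := by
  classical
  exact fun v => if h : ∃ p : Fin k × Fin s, φ p = v then y h.choose.1 h.choose.2 else z v

theorem emb_apply {n k s : ℕ} {φ : Fin k × Fin s → Fin n} (hφ : Function.Injective φ)
    (z : Fin n → Bool) (y : Fin k → Fin s → Bool) (p : Fin k × Fin s) :
    emb φ z y (φ p) = y p.1 p.2 := by
  have h : ∃ q : Fin k × Fin s, φ q = φ p := ⟨p, rfl⟩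
  have h2 : h.choose = p := hφ h.choose_spec
  unfold emb
  rw [dif_pos h, h2]

theorem emb_out {n k s : ℕ} {φ : Fin k × Fin s → Fin n}
    (z : Fin n → Bool) (y : Fin k → Fin s → Bool) (v : Fin n) (hv : ¬ ∃ p, φ p = v) :
    emb φ z y v = z v := by
  unfold emb
  rw [dif_neg hv]

/-- **Reflection.** If each digit of `F` sees at most one block, then `F (X e) + F (X (not e))`
does not depend on `e`. -/
theorem reflect {k M : ℕ} (F : (Fin k → Bool) → ℕ) (hM : ∀ e, F e < 2 ^ M)
    (hd : ∀ i < M, (∃ j, ∀ e e' : Fin k → Bool, e j = e' j →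
      (F e).testBit i = (F e').testBit i) ∨
      ∀ e e' : Fin k → Bool, (F e).testBit i = (F e').testBit i) (e : Fin k → Bool) :
    F e + F (fun j => !e j) = F (fun _ => true) + F (fun _ => false) := by
  have h1 : ∀ e, F e = ∑ i ∈ range M, 2 ^ i * ((F e).testBit i).toNat := fun e => by
    rw [← mod_two_pow_eq_sum, Nat.mod_eq_of_lt (hM e)]
  rw [h1 e, h1 (fun j => !e j), h1 (fun _ => true), h1 (fun _ => false),
    ← Finset.sum_add_distrib, ← Finset.sum_add_distrib]
  refine Finset.sum_congr rfl fun i hi => ?_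
  rw [← mul_add, ← mul_add]
  congr 1
  rcases hd i (Finset.mem_range.1 hi) with ⟨j, hj⟩ | hc
  · cases hej : e j
    · rw [hj e (fun _ => false) hej, hj (fun j => !e j) (fun _ => true) (by simp [hej]), add_comm]
    · rw [hj e (fun _ => true) hej, hj (fun j => !e j) (fun _ => false) (by simp [hej])]
  · rw [hc e (fun _ => true), hc (fun j => !e j) (fun _ => false)]

/-- a family of `2 ^ k` points with the reflection property -/
theorem rep_of_reflect {k m : ℕ} {A : Set ℕ} (F : (Fin k → Bool) → ℕ)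
    (hinj : Function.Injective F) (hA : ∀ e, F e ∈ A)
    (hr : ∀ e, F e + F (fun j => !e j) = m) : 2 ^ k ≤ rep A m := by
  classical
  have hfin : {p : ℕ × ℕ | p.1 ∈ A ∧ p.2 ∈ A ∧ p.1 + p.2 = m}.Finite := by
    refine (Finset.finite_toSet (Finset.HasAntidiagonal.antidiagonal m)).subset fun p hp => ?_
    exact Finset.mem_coe.2 (Finset.HasAntidiagonal.mem_antidiagonal.2 hp.2.2)
  have h1 : (Set.range fun e : Fin k → Bool => (F e, F fun j => !e j)) ⊆
      {p : ℕ × ℕ | p.1 ∈ A ∧ p.2 ∈ A ∧ p.1 + p.2 = m} := by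
    rintro _ ⟨e, rfl⟩
    exact ⟨hA e, hA _, hr e⟩
  have h2 := Set.ncard_le_ncard h1 hfin
  have h3 : (Set.range fun e : Fin k → Bool => (F e, F fun j => !e j)).ncard = 2 ^ k := by
    rw [← Set.image_univ, Set.ncard_image_of_injective _ (fun e e' h => hinj (Prod.mk.inj h).1),
      Set.ncard_univ, Nat.card_eq_fintype_card]
    simp
  rw [h3] at h2
  exact h2

/-- the blocks -/
theorem digit_block {n k s : ℕ} {φ : Fin k × Fin s → Fin n} (hφ : Function.Injective φ)
    {I : Finset (Fin n)} (hφI : ∀ p, φ p ∈ I) (z : Fin n → Bool) {β : Type*}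
    (g : (Fin n → Bool) → β) (B : Finset (Fin n)) (hB : (I ∩ B).card ≤ 1)
    (hg : ∀ x x', (∀ i, i ∉ I → x i = z i) → (∀ i, i ∉ I → x' i = z i) →
      (∀ j ∈ B, x j = x' j) → g x = g x')
    (z' : Fin n → Bool) (hz : ∀ i, i ∉ I → z' i = z i) (y y' : Fin k → Fin s → Bool) :
    (∃ j, ∀ e e' : Fin k → Bool, e j = e' j →
      g (emb φ z' fun i => if e i = true then y i else y' i) =
        g (emb φ z' fun i => if e' i = true then y i else y' i)) ∨
      ∀ e e' : Fin k → Bool, g (emb φ z' fun i => if e i = true then y i else y' i) =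
        g (emb φ z' fun i => if e' i = true then y i else y' i) := by
  have hin : ∀ w : Fin k → Fin s → Bool, ∀ i, i ∉ I → emb φ z' w i = z i := fun w i hi => by
    rw [emb_out z' w i (by rintro ⟨p, rfl⟩; exact hi (hφI p)), hz i hi]
  by_cases h : ∃ p, φ p ∈ B
  · left
    obtain ⟨p, hp⟩ := h
    refine ⟨p.1, fun e e' he => ?_⟩
    refine hg _ _ (hin _) (hin _) fun v hv => ?_
    by_cases hvp : ∃ q, φ q = v
    · obtain ⟨q, rfl⟩ := hvp
      have hqp : φ q = φ p := Finset.card_le_one.1 hB _ (Finset.mem_inter.2 ⟨hφI q, hv⟩) _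
        (Finset.mem_inter.2 ⟨hφI p, hp⟩)
      have hqp' := hφ hqp
      subst hqp'
      rw [emb_apply hφ, emb_apply hφ, he]
    · rw [emb_out _ _ _ hvp, emb_out _ _ _ hvp]
  · right
    intro e e'
    refine hg _ _ (hin _) (hin _) fun v hv => ?_
    by_cases hvp : ∃ q, φ q = v
    · obtain ⟨q, rfl⟩ := hvp
      exact (h ⟨q, hv⟩).elim
    · rw [emb_out _ _ _ hvp, emb_out _ _ _ hvp]

/-- `k` blocks of size `s` inside `I` with a box of points of `D` -/
theorem exists_blocks {n : ℕ} (I : Finset (Fin n)) (z : Fin n → Bool)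
    (D : Finset (Fin n → Bool)) (k s : ℕ) (δ : ℝ) (hks : k * s ≤ I.card) (h0 : 0 < δ)
    (h1 : δ ≤ 1) (hδ : δ ≤ dens D I z) (hs : (2 / δ) ^ (2 ^ (k + 1)) ≤ (2 : ℝ) ^ s) :
    ∃ (φ : Fin k × Fin s → Fin n) (z' : Fin n → Bool) (y y' : Fin k → Fin s → Bool),
      Function.Injective φ ∧ (∀ p, φ p ∈ I) ∧ (∀ i, i ∉ I → z' i = z i) ∧ (∀ i, y i ≠ y' i) ∧
      ∀ e : Fin k → Bool, emb φ z' (fun i => if e i = true then y i else y' i) ∈ D := by
  classical
  obtain ⟨φ0⟩ : Nonempty (Fin k × Fin s ↪ I) :=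
    Function.Embedding.nonempty_of_card_le (by simpa using hks)
  let φ : Fin k × Fin s → Fin n := fun p => (φ0 p : Fin n)
  have hφ : Function.Injective φ := Subtype.val_injective.comp φ0.injective
  have hφI : ∀ p, φ p ∈ I := fun p => (φ0 p).2
  let I' : Finset (Fin n) := Finset.univ.image φ
  have hI' : I' ⊆ I := by
    intro v hv
    obtain ⟨p, -, rfl⟩ := Finset.mem_image.1 hv
    exact hφI p
  have hcard : I'.card = k * s := by
    rw [Finset.card_image_of_injective _ hφ]
    simp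
  obtain ⟨z', hz', hd⟩ := exists_fix D hI' z
  let Dk : Finset (Fin k → Fin s → Bool) := Finset.univ.filter fun y => emb φ z' y ∈ D
  have hmem : ∀ x, InC I' z' x → ∃ y, emb φ z' y = x := by
    intro x hx
    refine ⟨fun i t => x (φ (i, t)), funext fun v => ?_⟩
    by_cases hv : ∃ p, φ p = v
    · obtain ⟨p, rfl⟩ := hv
      rw [emb_apply hφ]
    · rw [emb_out _ _ _ hv]
      refine (hx v fun h => hv ?_).symm
      obtain ⟨p, -, hp⟩ := Finset.mem_image.1 h
      exact ⟨p, hp⟩
  have hle : (D.filter fun x => InC I' z' x).card ≤ Dk.card := by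
    have hsub : (D.filter fun x => InC I' z' x) ⊆ Dk.image (emb φ z') := by
      intro x hx
      obtain ⟨hxD, hxC⟩ := Finset.mem_filter.1 hx
      obtain ⟨y, rfl⟩ := hmem x hxC
      exact Finset.mem_image.2 ⟨y, Finset.mem_filter.2 ⟨Finset.mem_univ _, hxD⟩, rfl⟩
    exact (Finset.card_le_card hsub).trans Finset.card_image_le
  have hdens : δ * ∏ i : Fin k, (Fintype.card (Fin s → Bool) : ℝ) ≤ Dk.card := by
    have e1 : ∏ i : Fin k, (Fintype.card (Fin s → Bool) : ℝ) = 2 ^ I'.card := by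
      rw [hcard]
      simp [← pow_mul, mul_comm]
    rw [e1]
    have e2 : δ ≤ ((D.filter fun x => InC I' z' x).card : ℝ) / 2 ^ I'.card := hδ.trans hd
    rw [le_div_iff₀ (by positivity)] at e2
    exact e2.trans (by exact_mod_cast hle)
  obtain ⟨y, y', hne, hbox⟩ := Pool.Agent.Helper29.AC.exists_box k (fun _ => Fin s → Bool) Dk δ
    h0 h1 hdens (fun i => by simpa using hs)
  exact ⟨φ, z', y, y', hφ, hφI, hz', hne, fun e => (Finset.mem_filter.1 (hbox e)).2⟩

theorem mix_inj {n k s : ℕ} {φ : Fin k × Fin s → Fin n} (hφ : Function.Injective φ)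
    (z' : Fin n → Bool) (y y' : Fin k → Fin s → Bool) (hne : ∀ i, y i ≠ y' i) :
    Function.Injective fun e : Fin k → Bool =>
      emb φ z' (fun i => if e i = true then y i else y' i) := by
  intro e e' h
  funext i
  by_contra hi
  apply hne i
  funext t
  have h2 := congrFun h (φ (i, t))
  simp only [emb_apply hφ] at h2
  cases h3 : e i <;> cases h4 : e' i
  · exact (hi (h3.trans h4.symm)).elim
  · rw [h3, h4] at h2
    simpa using h2.symm
  · rw [h3, h4] at h2
    simpa using h2
  · exact (hi (h3.trans h4.symm)).elim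

/-- **Clause (3), finite form.** -/
theorem cube3 (n M : ℕ) (A : Set ℕ) (G : (Fin n → Bool) → ℕ) (I : Finset (Fin n))
    (z : Fin n → Bool) (D : Finset (Fin n → Bool)) (hA : ∀ x ∈ D, G x ∈ A)
    (hinj : ∀ x ∈ D, ∀ x' ∈ D, G x = G x' → x = x') (hM : ∀ x, G x < 2 ^ M)
    (hdig : ∀ i < M, ∃ B : Finset (Fin n), (I ∩ B).card ≤ 1 ∧ ∀ x x', InC I z x → InC I z x' →
      (∀ j ∈ B, x j = x' j) → (G x).testBit i = (G x').testBit i)
    (k s : ℕ) (δ : ℝ) (hks : k * s ≤ I.card) (h0 : 0 < δ) (h1 : δ ≤ 1) (hδ : δ ≤ dens D I z)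
    (hs : (2 / δ) ^ (2 ^ (k + 1)) ≤ (2 : ℝ) ^ s) : ∃ m < 2 ^ (M + 1), 2 ^ k ≤ rep A m := by
  obtain ⟨φ, z', y, y', hφ, hφI, hz', hne, hbox⟩ := exists_blocks I z D k s δ hks h0 h1 hδ hs
  let F : (Fin k → Bool) → ℕ := fun e => G (emb φ z' fun i => if e i = true then y i else y' i)
  have hr := reflect F (fun e => hM _) (fun i hi => by
    obtain ⟨B, hB, hg⟩ := hdig i hi
    exact digit_block hφ hφI z (fun x => (G x).testBit i) B hB hg z' hz' y y')
  refine ⟨F (fun _ => true) + F (fun _ => false), ?_, rep_of_reflect F ?_ ?_ hr⟩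
  · have := hM (emb φ z' fun i => if (fun _ => true : Fin k → Bool) i = true then y i else y' i)
    have := hM (emb φ z' fun i => if (fun _ => false : Fin k → Bool) i = true then y i else y' i)
    have e1 : F (fun _ => true) < 2 ^ M := hM _
    have e2 : F (fun _ => false) < 2 ^ M := hM _
    rw [pow_succ]
    omega
  · intro e e' h
    exact mix_inj hφ z' y y' hne (hinj _ (hbox e) _ (hbox e') h)
  · intro e
    exact hA _ (hbox e)

/-- Clause (3), all points right: single variables as blocks. -/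
theorem cube3_all (n M : ℕ) (A : Set ℕ) (G : (Fin n → Bool) → ℕ) (I : Finset (Fin n))
    (z : Fin n → Bool) (hA : ∀ x, InC I z x → G x ∈ A)
    (hinj : Function.Injective G) (hM : ∀ x, G x < 2 ^ M)
    (hdig : ∀ i < M, ∃ B : Finset (Fin n), (I ∩ B).card ≤ 1 ∧ ∀ x x', InC I z x → InC I z x' →
      (∀ j ∈ B, x j = x' j) → (G x).testBit i = (G x').testBit i) :
    ∃ m < 2 ^ (M + 1), 2 ^ I.card ≤ rep A m := by
  classical
  obtain ⟨φ0⟩ : Nonempty (Fin I.card × Fin 1 ↪ I) :=
    Function.Embedding.nonempty_of_card_le (by simp)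
  let φ : Fin I.card × Fin 1 → Fin n := fun p => (φ0 p : Fin n)
  have hφ : Function.Injective φ := Subtype.val_injective.comp φ0.injective
  have hφI : ∀ p, φ p ∈ I := fun p => (φ0 p).2
  let y : Fin I.card → Fin 1 → Bool := fun _ _ => true
  let y' : Fin I.card → Fin 1 → Bool := fun _ _ => false
  have hne : ∀ i, y i ≠ y' i := fun i h => by simpa [y, y'] using congrFun h 0
  let F : (Fin I.card → Bool) → ℕ := fun e =>
    G (emb φ z fun i => if e i = true then y i else y' i)
  have hr := reflect F (fun e => hM _) (fun i hi => by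
    obtain ⟨B, hB, hg⟩ := hdig i hi
    exact digit_block hφ hφI z (fun x => (G x).testBit i) B hB hg z (fun _ _ => rfl) y y')
  refine ⟨F (fun _ => true) + F (fun _ => false), ?_, rep_of_reflect F ?_ ?_ hr⟩
  · have e1 : F (fun _ => true) < 2 ^ M := hM _
    have e2 : F (fun _ => false) < 2 ^ M := hM _
    rw [pow_succ]
    omega
  · intro e e' h
    exact mix_inj hφ z y y' hne (hinj h)
  · intro e
    refine hA _ fun i hi => ?_
    exact emb_out z _ i (by rintro ⟨p, rfl⟩; exact hi (hφI p))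

end Pool.Agent.Helper98.AC
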