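import Pool.Agent.Helper98.AC.Cube4
import Pool.Agent.Helper1.BX.Core
import Pool.Agent.Helper45.AC.Asym
import Pool.Agent.Helper72.AC.Depth

/-!
Injective maps computed by circuits of constant depth.
-/

set_option autoImplicit false

open Finset Filter

namespace Pool.Agent.Helper98.AC

open Pool.Agent.Helper72.AC

/-- **Clause (3).** Let the digits of `G : {0,1}^n → [0, 2^M)`, `M ≤ L n`, be computed by circuits
of depth `d` and fan-in `n ^ K`. If `G` takes values in `A` at `2^n / n^K` points at least, and is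
injective there, then `rep A m ≥ exp (n ^ (1 - ε))` for some `m < 2 ^ (M + 1)`. -/
theorem main3 (d K L : ℕ) (ε : ℝ) (hε : 0 < ε) : ∀ᶠ n : ℕ in atTop, ∀ M ≤ L * n,
    ∀ (A : Set ℕ) (G : (Fin n → Bool) → ℕ),
      (∀ i < M, Circ n (n ^ K) d fun x => (G x).testBit i) →
      (∀ x, G x ∈ A → G x < 2 ^ M) → Set.InjOn G {x | G x ∈ A} →
      (2 : ℝ) ^ n ≤ (n : ℝ) ^ K * Set.ncard {x | G x ∈ A} →
      ∃ m < 2 ^ (M + 1), Real.exp ((n : ℝ) ^ (1 - ε)) ≤ rep A m := by
  classical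
  have hη : (0 : ℝ) < min (ε / 2) (1 / 2) := lt_min (by linarith) (by norm_num)
  have hη1 : min (ε / 2) (1 / 2) < ε := (min_le_left _ _).trans_lt (by linarith)
  have hη2 : min (ε / 2) ((1 : ℝ) / 2) < 1 := (min_le_right _ _).trans_lt (by norm_num)
  filter_upwards [Pool.Agent.Helper1.BX.red depthStmt d K L _ hη,
    Pool.Agent.Helper45.AC.exp_sq_le K ε _ 1 hη1 hη2 one_pos] with n hred hexp M hM A G hG hlt
      hinj hcount
  let D : Finset (Fin n → Bool) := univ.filter fun x => G x ∈ A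
  have hD : ∀ x, x ∈ D ↔ G x ∈ A := fun x => by simp [D]
  have hDc : Set.ncard {x | G x ∈ A} = D.card := by
    rw [← Set.ncard_coe_finset]
    congr 1
    ext x
    simp [D]
  rw [hDc] at hcount
  obtain ⟨I, z, hI, hz, hB⟩ := hred M hM (fun i x => (G x).testBit i) (fun i => hG i i.2) D hcount
  obtain ⟨m, hm, hrep⟩ := cube4 n M A G I z D (fun x hx => (hD x).1 hx)
    (fun x hx x' hx' h => hinj ((hD x).1 hx) ((hD x').1 hx') h)
    (fun x hx => hlt x ((hD x).1 hx)) (fun i hi => by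
      obtain ⟨B, hB1, hB2⟩ := hB ⟨i, hi⟩
      exact ⟨B, hB1, fun x x' hx hx' hj => hB2 x x' hx hx' hj⟩)
  refine ⟨m, hm, ?_⟩
  have h1 := hexp I.card (by rw [one_mul]; exact hI)
  have h2 : (1 : ℝ) ≤ Real.exp ((n : ℝ) ^ (1 - ε)) :=
    Real.one_le_exp (Real.rpow_nonneg (Nat.cast_nonneg n) _)
  calc Real.exp ((n : ℝ) ^ (1 - ε)) ≤ Real.exp ((n : ℝ) ^ (1 - ε)) ^ 2 := by nlinarith
    _ ≤ (1 / (2 * (n : ℝ) ^ K)) ^ 2 * (4 / 3) ^ I.card := h1
    _ ≤ Pool.Agent.Helper72.AC.dens D I z ^ 2 * (4 / 3) ^ I.card := by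
        refine mul_le_mul_of_nonneg_right ?_ (by positivity)
        exact pow_le_pow_left₀ (by positivity) hz 2
    _ ≤ rep A m := hrep

end Pool.Agent.Helper98.AC
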