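import Pool.Agent.Helper98.AC.Cube3

/-!
Representations from a dense set on an independent set of variables, by counting pairs.
-/

set_option autoImplicit false

open Finset

namespace Pool.Agent.Helper98.AC

open Pool.Agent.Helper72.AC

/-- Each digit of `F` sees at most one variable of `I`. -/
def Sees {n : ℕ} (I : Finset (Fin n)) (z : Fin n → Bool) (F : (Fin n → Bool) → ℕ) (M : ℕ) : Prop :=
  ∀ i < M, ∃ B : Finset (Fin n), (I ∩ B).card ≤ 1 ∧ ∀ x x', InC I z x → InC I z x' →
    (∀ j ∈ B, x j = x' j) → (F x).testBit i = (F x').testBit i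

/-- the sum of the values at two points depends only on the sums of the coordinates -/
theorem sum_const {n M : ℕ} {I : Finset (Fin n)} {z : Fin n → Bool} {F : (Fin n → Bool) → ℕ}
    (hd : Sees I z F M) {x x' w w' : Fin n → Bool}
    (hx : InC I z x) (hx' : InC I z x') (hw : InC I z w) (hw' : InC I z w')
    (mx : F x < 2 ^ M) (mx' : F x' < 2 ^ M) (mw : F w < 2 ^ M) (mw' : F w' < 2 ^ M)
    (h : ∀ j ∈ I, (x j).toNat + (x' j).toNat = (w j).toNat + (w' j).toNat) :
    F x + F x' = F w + F w' := by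
  have h1 : ∀ u, F u < 2 ^ M → F u = ∑ i ∈ range M, 2 ^ i * ((F u).testBit i).toNat := fun u hu => by
    rw [← mod_two_pow_eq_sum, Nat.mod_eq_of_lt hu]
  rw [h1 x mx, h1 x' mx', h1 w mw, h1 w' mw', ← Finset.sum_add_distrib, ← Finset.sum_add_distrib]
  refine Finset.sum_congr rfl fun i hi => ?_
  rw [← mul_add, ← mul_add]
  congr 1
  obtain ⟨B, hB, hg⟩ := hd i (Finset.mem_range.1 hi)
  by_cases hne : ∃ j, j ∈ I ∩ B
  · obtain ⟨j, hj⟩ := hne
    have hjI := (Finset.mem_inter.1 hj).1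
    -- the digit depends on the variable `j` only
    have key : ∀ u v : Fin n → Bool, InC I z u → InC I z v → u j = v j →
        (F u).testBit i = (F v).testBit i := by
      intro u v hu hv huv
      refine hg u v hu hv fun t ht => ?_
      by_cases htI : t ∈ I
      · have : t = j := Finset.card_le_one.1 hB _ (Finset.mem_inter.2 ⟨htI, ht⟩) _ hj
        rw [this, huv]
      · rw [hu t htI, hv t htI]
    have hs := h j hjI
    have hor : (x j = w j ∧ x' j = w' j) ∨ (x j = w' j ∧ x' j = w j) := by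
      revert hs
      cases x j <;> cases x' j <;> cases w j <;> cases w' j <;> simp
    rcases hor with ⟨h1, h2⟩ | ⟨h1, h2⟩
    · rw [key x w hx hw h1, key x' w' hx' hw' h2]
    · rw [key x w' hx hw' h1, key x' w hx' hw h2, add_comm]
  · have key : ∀ u v : Fin n → Bool, InC I z u → InC I z v →
        (F u).testBit i = (F v).testBit i := by
      intro u v hu hv
      refine hg u v hu hv fun t ht => ?_
      by_cases htI : t ∈ I
      · exact (hne ⟨t, Finset.mem_inter.2 ⟨htI, ht⟩⟩).elim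
      · rw [hu t htI, hv t htI]
    rw [key x w hx hw, key x' w' hx' hw']

/-- pigeonhole: many pairs of a dense set with the same sums of coordinates -/
theorem exists_class {n : ℕ} (I : Finset (Fin n)) (z : Fin n → Bool)
    (D : Finset (Fin n → Bool)) (hne : (D.filter fun x => InC I z x).Nonempty) :
    ∃ P : Finset ((Fin n → Bool) × (Fin n → Bool)), P.Nonempty ∧
      dens D I z ^ 2 * (4 / 3) ^ I.card ≤ (P.card : ℝ) ∧
      (∀ p ∈ P, p.1 ∈ D ∧ p.2 ∈ D ∧ InC I z p.1 ∧ InC I z p.2) ∧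
      ∀ p ∈ P, ∀ q ∈ P, ∀ j ∈ I,
        (p.1 j).toNat + (p.2 j).toNat = (q.1 j).toNat + (q.2 j).toNat := by
  classical
  let T := D.filter fun x => InC I z x
  let cls : (Fin n → Bool) × (Fin n → Bool) → (I → Fin 3) := fun p j =>
    ⟨(p.1 j).toNat + (p.2 j).toNat, by
      have h1 := Bool.toNat_le (p.1 j)
      have h2 := Bool.toNat_le (p.2 j)
      omega⟩
  have hT : 0 < T.card := hne.card_pos
  have h3 : (0 : ℝ) < 3 ^ I.card := by positivity
  obtain ⟨κ, -, hκ⟩ := Finset.exists_le_card_fiber_of_nsmul_le_card_of_maps_to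
    (s := T ×ˢ T) (t := (Finset.univ : Finset (I → Fin 3))) (f := cls)
    (b := (T.card : ℝ) ^ 2 / 3 ^ I.card) (fun _ _ => Finset.mem_univ _) ⟨fun _ => 0, Finset.mem_univ _⟩
    (by
      rw [nsmul_eq_mul, Finset.card_product]
      have : ((Finset.univ : Finset (I → Fin 3)).card : ℝ) = 3 ^ I.card := by
        rw [Finset.card_univ, Fintype.card_fun, Fintype.card_fin, Fintype.card_coe]
        push_cast
        rfl
      rw [this, mul_div_cancel₀ _ h3.ne']
      push_cast
      rw [sq])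
  refine ⟨(T ×ˢ T).filter fun p => cls p = κ, ?_, ?_, ?_, ?_⟩
  · rw [← Finset.card_pos]
    have h4 : (0 : ℝ) < (T.card : ℝ) ^ 2 / 3 ^ I.card := by
      have : (0 : ℝ) < T.card := by exact_mod_cast hT
      positivity
    exact_mod_cast h4.trans_le hκ
  · refine le_trans (le_of_eq ?_) hκ
    have e1 : dens D I z = (T.card : ℝ) / 2 ^ I.card := rfl
    rw [e1, div_pow, div_pow, ← pow_mul, mul_comm I.card 2, pow_mul, show (2 : ℝ) ^ 2 = 4 by norm_num]
    have h4 : (4 : ℝ) ^ I.card ≠ 0 := by positivity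
    field_simp
  · intro p hp
    obtain ⟨hp1, -⟩ := Finset.mem_filter.1 hp
    obtain ⟨ha, hb⟩ := Finset.mem_product.1 hp1
    obtain ⟨ha1, ha2⟩ := Finset.mem_filter.1 ha
    obtain ⟨hb1, hb2⟩ := Finset.mem_filter.1 hb
    exact ⟨ha1, hb1, ha2, hb2⟩
  · intro p hp q hq j hj
    have h5 := congrFun ((Finset.mem_filter.1 hp).2.trans (Finset.mem_filter.1 hq).2.symm) ⟨j, hj⟩
    exact congrArg Fin.val h5

/-- **Clause (3), finite form.** An injective map with digits that see at most one variable of `I`: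
if it takes values in `A` on a dense set, then some number has many representations. -/
theorem cube4 (n M : ℕ) (A : Set ℕ) (G : (Fin n → Bool) → ℕ) (I : Finset (Fin n))
    (z : Fin n → Bool) (D : Finset (Fin n → Bool)) (hA : ∀ x ∈ D, G x ∈ A)
    (hinj : ∀ x ∈ D, ∀ x' ∈ D, G x = G x' → x = x') (hM : ∀ x ∈ D, G x < 2 ^ M)
    (hdig : Sees I z G M) :
    ∃ m < 2 ^ (M + 1), dens D I z ^ 2 * (4 / 3) ^ I.card ≤ (rep A m : ℝ) := by
  classical
  rcases (D.filter fun x => InC I z x).eq_empty_or_nonempty with he | hne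
  · refine ⟨0, by positivity, ?_⟩
    have : dens D I z = 0 := by
      unfold Pool.Agent.Helper72.AC.dens
      rw [he]
      simp
    rw [this]
    simp
  obtain ⟨P, hPne, hPc, hPD, hPs⟩ := exists_class I z D hne
  obtain ⟨q, hq⟩ := hPne
  have hqD := hPD q hq
  have hfin : {p : ℕ × ℕ | p.1 ∈ A ∧ p.2 ∈ A ∧ p.1 + p.2 = G q.1 + G q.2}.Finite := by
    refine (Finset.finite_toSet (Finset.HasAntidiagonal.antidiagonal (G q.1 + G q.2))).subset
      fun p hp => ?_
    exact Finset.mem_coe.2 (Finset.HasAntidiagonal.mem_antidiagonal.2 hp.2.2)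
  refine ⟨G q.1 + G q.2, ?_, hPc.trans ?_⟩
  · have e1 := hM _ hqD.1
    have e2 := hM _ hqD.2.1
    rw [pow_succ]
    omega
  · have h1 : ((fun p : (Fin n → Bool) × (Fin n → Bool) => (G p.1, G p.2)) '' (P : Set _)) ⊆
        {p : ℕ × ℕ | p.1 ∈ A ∧ p.2 ∈ A ∧ p.1 + p.2 = G q.1 + G q.2} := by
      rintro _ ⟨p, hp, rfl⟩
      have hpD := hPD p hp
      exact ⟨hA _ hpD.1, hA _ hpD.2.1, sum_const hdig hpD.2.2.1 hpD.2.2.2 hqD.2.2.1 hqD.2.2.2
        (hM _ hpD.1) (hM _ hpD.2.1) (hM _ hqD.1) (hM _ hqD.2.1) (hPs p hp q hq)⟩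
    have h2 := Set.ncard_le_ncard h1 hfin
    rw [Set.InjOn.ncard_image, Set.ncard_coe_finset] at h2
    · unfold rep
      exact_mod_cast h2
    · intro p hp p' hp' h
      have hpD := hPD p hp
      have hpD' := hPD p' hp'
      exact Prod.ext (hinj _ hpD.1 _ hpD'.1 (Prod.mk.inj h).1)
        (hinj _ hpD.2.1 _ hpD'.2.1 (Prod.mk.inj h).2)

end Pool.Agent.Helper98.AC
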